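import Mathlib

namespace Pool.Agent.Results.MP_b62331_al.Neg

/-- A class of groups. -/
abbrev Cls := (G : Type) → [Group G] → Prop

/-- Consists of finite groups and is closed under isomorphism and under taking subgroups. -/
def Closed (X : Cls) : Prop :=
  (∀ (G : Type) [Group G], X G → Finite G) ∧
    ∀ (G H : Type) [Group G] [Group H] (f : H →* G), Function.Injective f → X G → X H

def IsMax (X : Cls) {G : Type} [Group G] (H : Subgroup G) : Prop :=
  X H ∧ ∀ K : Subgroup G, X K → ¬ H < K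

def IsMaxNormal (X : Cls) {G : Type} [Group G] (H : Subgroup G) : Prop :=
  H.Normal ∧ X H ∧ ∀ K : Subgroup G, K.Normal → X K → ¬ H < K

/-- The number of `X`-subgroups `K` with `H < K` and `|K : H| = p`. -/
noncomputable def aNum (p : ℕ) (X : Cls) {G : Type} [Group G] (H : Subgroup G) : ℕ :=
  {K : Subgroup G | H < K ∧ X K ∧ H.relIndex K = p}.ncard

def X0 (p : ℕ) : Cls := fun G _ => Finite G ∧ (Nat.card G ∣ p ^ 2 ∨ (Nat.card G = p ^ 3 ∧
  ((∀ a b : G, a * b = b * a) ∨ ∃ a b : G, a ^ p = 1 ∧ b ^ p = 1 ∧ a * b ≠ b * a)))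

section
variable {p : ℕ} [hp : Fact p.Prime]

omit hp in
theorem X0_dvd {G : Type} [Group G] (h : X0 p G) : Nat.card G ∣ p ^ 3 := by
  rcases h.2 with h | h
  · exact h.trans (pow_dvd_pow _ (by decide))
  · rw [h.1]

theorem dv {n : ℕ} (h : n ∣ p ^ 3) : n = p ^ 3 ∨ n ∣ p ^ 2 := by
  obtain ⟨k, hk, rfl⟩ := (Nat.dvd_prime_pow hp.out).1 h
  by_cases h3 : k = 3
  · exact Or.inl (by rw [h3])
  · exact Or.inr (pow_dvd_pow _ (by omega))

theorem dv2 {n : ℕ} (h : n ∣ p ^ 2) : n = p ^ 2 ∨ n ∣ p := by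
  obtain ⟨k, hk, rfl⟩ := (Nat.dvd_prime_pow hp.out).1 h
  by_cases h3 : k = 2
  · exact Or.inl (by rw [h3])
  · exact Or.inr ((pow_dvd_pow _ (show k ≤ 1 by omega)).trans (by rw [pow_one]))

theorem closed : Closed (X0 p) := by
  refine ⟨fun G _ h => h.1, fun G H _ _ f hi h => ?_⟩
  have hd := Subgroup.card_dvd_of_injective f hi
  haveI := h.1
  refine ⟨Finite.of_injective f hi, ?_⟩
  rcases h.2 with h | ⟨h8, h⟩
  · exact Or.inl (hd.trans h)
  · rcases dv (h8 ▸ hd) with he | he
    · refine Or.inr ⟨he, ?_⟩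
      rcases h with h | ⟨a, b, h1, h1', h2⟩
      · exact Or.inl (fun a b => hi (by rw [map_mul, map_mul, h]))
      · have hs := (hi.bijective_of_nat_card_le (by rw [h8, he])).2
        obtain ⟨a, rfl⟩ := hs a
        obtain ⟨b, rfl⟩ := hs b
        exact Or.inr ⟨a, b, hi (by rw [map_pow, map_one, h1]), hi (by rw [map_pow, map_one, h1']),
          fun h3 => h2 (by rw [← map_mul, ← map_mul, h3])⟩
    · exact Or.inl he

theorem L0 {Q : Type} [Group Q] [Finite Q] (hQ : IsPGroup p Q) (C : Subgroup Q) [C.Normal]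
    (hC : C ≠ ⊥) : ∃ c ∈ C, orderOf c = p ∧ ∀ g, g * c = c * g := by
  letI : MulAction Q C := MulAction.compHom C (MulAut.conjNormal : Q →* MulAut C)
  have h2 : p ∣ Nat.card C := ((hQ.to_subgroup C).card_eq_or_dvd).resolve_left
    (fun h => hC (Subgroup.card_eq_one.1 h))
  have h1 : (1 : C) ∈ MulAction.fixedPoints Q C := fun g => map_one (MulAut.conjNormal g)
  obtain ⟨b, hb, hb1⟩ := hQ.exists_fixed_point_of_prime_dvd_card_of_fixed_point C h2 h1
  have hc : ∀ g, g * (b : Q) = b * g := by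
    intro g
    have : g * (b : Q) * g⁻¹ = b := congrArg Subtype.val (hb g)
    exact mul_inv_eq_iff_eq_mul.1 this
  have hb2 : (b : Q) ≠ 1 := fun h => hb1 (Subtype.ext h).symm
  have h3 : p ∣ Nat.card (Subgroup.zpowers (b : Q)) := by
    rw [Nat.card_zpowers]
    exact hQ.dvd_orderOf hb2
  obtain ⟨⟨y, n, rfl⟩, hy⟩ := exists_prime_orderOf_dvd_card' p h3
  rw [← Subgroup.orderOf_coe] at hy
  exact ⟨(b : Q) ^ n, C.zpow_mem b.2 n, hy, fun g => (Commute.zpow_right (hc g) n).eq⟩

theorem crd {G : Type} [Group G] {H K : Subgroup G} (h : H ≤ K) :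
    H.relIndex K * Nat.card H = Nat.card K := by
  rw [← Nat.card_congr (Subgroup.subgroupOfEquivOfLe h).toEquiv]
  exact Subgroup.index_mul_card _

theorem clt {G : Type} [Group G] [Finite G] {H K : Subgroup G} (hlt : H < K) :
    Nat.card H < Nat.card K :=
  lt_of_not_ge (fun h => hlt.ne (Subgroup.eq_of_le_of_card_ge hlt.le h))

theorem L1 {G : Type} [Group G] [Finite G] (hG : IsPGroup p G) (H C : Subgroup G) [H.Normal]
    [C.Normal] (h : H < C) : ∃ N : Subgroup G, N.Normal ∧ H < N ∧ Nat.card N = p * Nat.card H ∧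
      ∃ c ∈ C, ∀ x ∈ N, ∃ k : ℤ, (c ^ k)⁻¹ * x ∈ H := by
  haveI : (C.map (QuotientGroup.mk' H)).Normal :=
    Subgroup.Normal.map inferInstance _ (QuotientGroup.mk'_surjective H)
  obtain ⟨q, ⟨c, hc, rfl⟩, h1, h3⟩ := L0 (hG.to_quotient H) (C.map (QuotientGroup.mk' H)) (by
    intro hb
    rw [Subgroup.map_eq_bot_iff, QuotientGroup.ker_mk'] at hb
    exact not_le_of_gt h hb)
  have hs := QuotientGroup.mk'_surjective H
  have hker := QuotientGroup.ker_mk' H
  generalize QuotientGroup.mk' H = f at *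
  have hk : ∀ x, x ∈ H ↔ f x = 1 := fun x => by rw [← MonoidHom.mem_ker, hker]
  have hZ : (Subgroup.zpowers (f c)).Normal := ⟨by
    rintro _ ⟨k, rfl⟩ g
    rw [(Commute.zpow_right (h3 g) k).eq, mul_inv_cancel_right]
    exact ⟨k, rfl⟩⟩
  have hle : H ≤ (Subgroup.zpowers (f c)).comap f := fun x hx => by
    rw [Subgroup.mem_comap, (hk x).1 hx]
    exact Subgroup.one_mem _
  refine ⟨(Subgroup.zpowers (f c)).comap f, hZ.comap f, ?_, ?_, c, hc, ?_⟩
  · refine lt_of_le_of_ne hle (fun he => ?_)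
    have : c ∈ H := he ▸ (Subgroup.mem_zpowers (f c))
    rw [(hk c).1 this, orderOf_one] at h1
    exact hp.out.one_lt.ne h1
  · rw [← crd hle]
    congr 1
    have hr : f.ker.relIndex ((Subgroup.zpowers (f c)).comap f) = _ := Subgroup.relIndex_ker _ _
    rw [hker, Subgroup.map_comap_eq_self_of_surjective hs, Nat.card_zpowers, h1] at hr
    exact hr
  · rintro x ⟨k, hx⟩
    refine ⟨k, (hk _).2 ?_⟩
    rw [map_mul, map_inv, map_zpow, ← hx]
    exact inv_mul_cancel _

theorem cond1 (G : Type) [Group G] [Finite G] (hG : IsPGroup p G) (H : Subgroup G)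
    (hH : IsMaxNormal (X0 p) H) : IsMax (X0 p) H := by
  obtain ⟨hn, hX, hm⟩ := hH
  refine ⟨hX, fun K hK hlt => ?_⟩
  have p0 := hp.out.pos
  have hd := (Subgroup.card_dvd_of_le hlt.le).trans (X0_dvd hK)
  have hl := clt hlt
  have h8 := Nat.le_of_dvd (by positivity) (X0_dvd hK)
  rcases dv2 ((dv hd).resolve_left (by omega)) with h4 | h4
  · have hab : ∀ a ∈ H, ∀ b ∈ H, a * b = b * a := fun a ha b hb => congrArg Subtype.val
      (IsPGroup.commutative_of_card_eq_prime_sq (p := p) (G := H) h4 ⟨a, ha⟩ ⟨b, hb⟩)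
    have hle : H ≤ Subgroup.centralizer (H : Set G) := fun a ha b hb => hab b hb a ha
    rcases hle.lt_or_eq with hC | hC
    · obtain ⟨N, hN, hHN, hc, c, hcC, hx⟩ := L1 hG H _ hC
      refine hm N hN ⟨inferInstance, Or.inr ⟨by rw [hc, h4]; ring, Or.inl ?_⟩⟩ hHN
      rintro ⟨x, hxN⟩ ⟨y, hyN⟩
      apply Subtype.ext
      show x * y = y * x
      have k1 : ∀ a ∈ H, Commute c a := fun a ha => (hcC a ha).symm
      obtain ⟨k, h1⟩ := hx x hxN
      obtain ⟨l, h2⟩ := hx y hyN
      have ex : x = c ^ k * ((c ^ k)⁻¹ * x) := by group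
      have ey : y = c ^ l * ((c ^ l)⁻¹ * y) := by group
      rw [ex, ey]
      exact (Commute.mul_left (Commute.mul_right (Commute.zpow_zpow_self c k l)
        ((k1 _ h2).zpow_left k)) (Commute.mul_right ((k1 _ h1).zpow_left l).symm
          (hab _ h1 _ h2))).eq
    · have pp : p < p ^ 2 := by nlinarith [hp.out.two_le]
      obtain ⟨z, hz, hz1, hz3⟩ := L0 hG H (fun h => by
        rw [h, Subgroup.card_bot] at h4
        omega)
      have hzl : Subgroup.zpowers z < H := lt_of_le_of_ne ((Subgroup.zpowers_le).2 hz) (fun e => by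
        rw [← e, Nat.card_zpowers, hz1] at h4
        omega)
      obtain ⟨h, hh, hh2⟩ := SetLike.exists_of_lt hzl
      letI : MulAction G H := MulAction.compHom H (MulAut.conjNormal : G →* MulAut H)
      have hin : MulAction.stabilizer G (⟨h, hh⟩ : H) ≤ H := by
        intro g hg
        have e : g * h * g⁻¹ = h := congrArg Subtype.val hg
        have e2 : g * h = h * g := mul_inv_eq_iff_eq_mul.1 e
        have l1 : Subgroup.zpowers z < H ⊓ Subgroup.centralizer {g} := by
          refine lt_of_le_of_ne ((Subgroup.zpowers_le).2 ⟨hz, ?_⟩) (fun e => hh2 (e ▸ ⟨hh, ?_⟩))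
          · rintro _ rfl
            exact hz3 _
          · rintro _ rfl
            exact e2
        have l2 := clt l1
        rw [Nat.card_zpowers, hz1] at l2
        have l3 := Subgroup.card_dvd_of_le (inf_le_left : H ⊓ Subgroup.centralizer {g} ≤ H)
        rw [h4] at l3
        have l4 := (dv2 l3).resolve_right (fun d => by have := Nat.le_of_dvd p0 d; omega)
        have l5 := Subgroup.eq_of_le_of_card_ge
          (inf_le_left : H ⊓ Subgroup.centralizer {g} ≤ H) (by rw [l4, h4])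
        rw [hC]
        intro y hy
        have : y ∈ H ⊓ Subgroup.centralizer {g} := l5.symm ▸ hy
        exact (this.2 g rfl).symm
      obtain ⟨n, hn'⟩ := hG.index (MulAction.stabilizer G (⟨h, hh⟩ : H))
      have ho : (MulAction.orbit G (⟨h, hh⟩ : H)).ncard < Nat.card H := by
        apply Set.ncard_lt_card
        intro e
        obtain ⟨g, hg⟩ : (1 : H) ∈ MulAction.orbit G (⟨h, hh⟩ : H) := e ▸ Set.mem_univ _
        have e1 : g * h * g⁻¹ = 1 := congrArg Subtype.val hg
        have e2 : h = 1 := by simpa using e1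
        exact hh2 (e2 ▸ Subgroup.one_mem _)
      rw [← MulAction.index_stabilizer, hn', h4] at ho
      have hn1 : n ≤ 1 := by
        have := (Nat.pow_lt_pow_iff_right hp.out.one_lt).1 ho
        omega
      have hc := Subgroup.index_mul_card (MulAction.stabilizer G (⟨h, hh⟩ : H))
      have hs := Subgroup.card_le_of_le hin
      have hK3 : Nat.card K = p ^ 3 := (dv (X0_dvd hK)).resolve_right (fun d => by
        have := Nat.le_of_dvd (by positivity) d
        omega)
      have hT : K = ⊤ := by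
        apply Subgroup.eq_top_of_le_card
        rw [← hc, hn', hK3, pow_succ' p 2, ← h4]
        exact Nat.mul_le_mul ((Nat.pow_le_pow_right p0 hn1).trans (by rw [pow_one])) hs
      exact hm K (hT ▸ inferInstance) hK hlt
  · obtain ⟨N, hN, hHN, hc, -⟩ := L1 hG H ⊤ (lt_of_lt_of_le hlt le_top)
    refine hm N hN ⟨inferInstance, Or.inl ?_⟩ hHN
    rw [hc, pow_two]
    exact Nat.mul_dvd_mul_left _ h4

def io (t : ZMod p) : ZMod (p * p) := (p : ZMod (p * p)) * (t.val : ZMod (p * p))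

theorem io_nat (m : ℕ) : io (m : ZMod p) = (p : ZMod (p * p)) * (m : ZMod (p * p)) := by
  unfold io
  rw [ZMod.val_natCast, ← Nat.cast_mul, ← Nat.cast_mul, ZMod.natCast_eq_natCast_iff]
  exact Nat.ModEq.mul_left' _ (Nat.mod_modEq _ _)

theorem io_add (s t : ZMod p) : io (s + t) = io s + io t := by
  obtain ⟨s, rfl⟩ := ZMod.natCast_zmod_surjective s
  obtain ⟨t, rfl⟩ := ZMod.natCast_zmod_surjective t
  rw [← Nat.cast_add, io_nat, io_nat, io_nat, Nat.cast_add, mul_add]

theorem io0 : io (0 : ZMod p) = 0 := by simp [io]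

def pr : ZMod (p * p) →+* ZMod p := ZMod.castHom (dvd_mul_left p p) (ZMod p)

theorem pr_io (t : ZMod p) : pr (io t) = 0 := by simp [io]

theorem mulp {m : ℕ} (h : (p : ZMod (p * p)) * (m : ZMod (p * p)) = 0) : (m : ZMod p) = 0 := by
  rw [← Nat.cast_mul, ZMod.natCast_eq_zero_iff] at h
  exact (ZMod.natCast_eq_zero_iff _ _).2 (Nat.dvd_of_mul_dvd_mul_left hp.out.pos h)

@[ext] structure W (p : ℕ) where
  a : ZMod (p * p)
  x : ZMod p
  z : ZMod p

instance : Mul (W p) := ⟨fun g h => ⟨g.a + h.a + io (g.z * h.x), g.x + h.x, g.z + h.z⟩⟩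
instance : One (W p) := ⟨⟨0, 0, 0⟩⟩
instance : Inv (W p) := ⟨fun g => ⟨-g.a - io (-g.z * g.x), -g.x, -g.z⟩⟩

theorem mul_d (g h : W p) : g * h = ⟨g.a + h.a + io (g.z * h.x), g.x + h.x, g.z + h.z⟩ := rfl
theorem one_d : (1 : W p) = ⟨0, 0, 0⟩ := rfl
theorem inv_d (g : W p) : g⁻¹ = ⟨-g.a - io (-g.z * g.x), -g.x, -g.z⟩ := rfl

instance : Group (W p) := Group.ofLeftAxioms
  (fun a b c => by
    simp only [mul_d, add_mul, mul_add, io_add, W.mk.injEq]
    refine ⟨by ring, by ring, by ring⟩)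
  (fun a => by simp only [mul_d, one_d, zero_mul, io0, zero_add, add_zero])
  (fun a => by
    simp only [mul_d, one_d, inv_d, W.mk.injEq]
    refine ⟨by ring, by ring, by ring⟩)

def eqv : W p ≃ ZMod (p * p) × ZMod p × ZMod p :=
  ⟨fun g => (g.a, g.x, g.z), fun t => ⟨t.1, t.2.1, t.2.2⟩, fun _ => rfl, fun _ => rfl⟩

instance : NeZero (p * p) := ⟨(Nat.mul_pos hp.out.pos hp.out.pos).ne'⟩

instance : Finite (W p) := Finite.of_equiv _ eqv.symm

theorem cW : Nat.card (W p) = p ^ 4 := by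
  rw [Nat.card_congr eqv, Nat.card_prod, Nat.card_prod, Nat.card_zmod, Nat.card_zmod]
  ring

theorem pw (g : W p) (n : ℕ) :
    g ^ n = ⟨(n : ZMod (p * p)) * g.a + io (((n.choose 2 : ℕ) : ZMod p) * (g.z * g.x)),
      (n : ZMod p) * g.x, (n : ZMod p) * g.z⟩ := by
  induction n with
  | zero => simp [one_d, io0]
  | succ n ih =>
    rw [pow_succ, ih, mul_d, Nat.choose_succ_succ' n 1, Nat.choose_one_right]
    simp only [Nat.cast_add, Nat.cast_one, add_mul, io_add, W.mk.injEq, mul_assoc]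
    refine ⟨by ring, by ring, by ring⟩

def f1 : W p →* Multiplicative (ZMod p) := MonoidHom.mk' (fun g => Multiplicative.ofAdd g.z)
  (fun _ _ => rfl)
def f2 : W p →* Multiplicative (ZMod p) :=
  MonoidHom.mk' (fun g => Multiplicative.ofAdd (pr g.a)) (fun a b => by
    rw [mul_d, ← ofAdd_add]
    simp only [map_add, pr_io, add_zero])

theorem m1 (g : W p) : g ∈ (f1 (p := p)).ker ↔ g.z = 0 := Iff.rfl
theorem m2 (g : W p) : g ∈ (f2 (p := p)).ker ↔ pr g.a = 0 := Iff.rfl

theorem ck {T : Type} [Group T] (f : W p →* T) (hf : Function.Surjective f) (k j : ℕ)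
    (hk : k + j = 4) (hT : Nat.card T = p ^ k) : Nat.card f.ker = p ^ j := by
  have h := Subgroup.index_mul_card f.ker
  rw [Subgroup.index_ker, MonoidHom.range_eq_top.2 hf, Subgroup.card_top, hT, cW] at h
  apply Nat.eq_of_mul_eq_mul_left (pow_pos hp.out.pos k)
  rw [h, ← pow_add, hk]

theorem prs (t : ZMod p) : pr ((t.val : ℕ) : ZMod (p * p)) = t := by
  rw [map_natCast, ZMod.natCast_zmod_val]

theorem v1 (g : W p) : f1 g = Multiplicative.ofAdd g.z := rfl
theorem v2 (g : W p) : f2 g = Multiplicative.ofAdd (pr g.a) := rfl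
theorem cT : Nat.card (Multiplicative (ZMod p)) = p ^ 1 := by
  rw [Nat.card_congr Multiplicative.toAdd, Nat.card_zmod, pow_one]

theorem s1 : Function.Surjective (f1 (p := p)) := fun t =>
  ⟨⟨0, 0, t.toAdd⟩, by rw [v1, ofAdd_toAdd]⟩
theorem s2 : Function.Surjective (f2 (p := p)) := fun t =>
  ⟨⟨(t.toAdd.val : ℕ), 0, 0⟩, by rw [v2, prs, ofAdd_toAdd]⟩
theorem s3 : Function.Surjective ((f1 (p := p)).prod (f2 (p := p))) := fun t =>
  ⟨⟨(t.2.toAdd.val : ℕ), 0, t.1.toAdd⟩, by
    rw [MonoidHom.prod_apply, v1, v2, prs, ofAdd_toAdd, ofAdd_toAdd]⟩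

theorem d1 : Nat.card (f1 (p := p)).ker = p ^ 3 := ck (p := p) _ s1 1 3 (by decide) cT
theorem d2 : Nat.card (f2 (p := p)).ker = p ^ 3 := ck (p := p) _ s2 1 3 (by decide) cT
theorem d0 : Nat.card ((f1 (p := p)).ker ⊓ f2.ker : Subgroup (W p)) = p ^ 2 := by
  rw [← MonoidHom.ker_prod]
  exact ck (p := p) _ s3 2 2 (by decide) (by rw [Nat.card_prod, cT, pow_one, pow_two])

theorem cm {g h : W p} (e : g * h = h * g) : g.z * h.x = h.z * g.x := by
  have h1 : g.a + h.a + io (g.z * h.x) = h.a + g.a + io (h.z * g.x) := congrArg W.a e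
  have h2 := io_add (g.z * h.x - h.z * g.x) (h.z * g.x)
  rw [sub_add_cancel] at h2
  have h3 : io (g.z * h.x - h.z * g.x) = 0 := by linear_combination h1 - h2
  have h4 := mulp h3
  rw [ZMod.natCast_zmod_val] at h4
  exact sub_eq_zero.1 h4

theorem ab1 {g h : W p} (hg : g.z = 0) (hh : h.z = 0) : g * h = h * g := by
  simp only [mul_d, hg, hh, zero_mul, W.mk.injEq]
  refine ⟨by ring, by ring, trivial⟩

theorem cntp (h2 : p ≠ 2) : {K : Subgroup (W p) | f1.ker ⊓ f2.ker < K ∧ X0 p K ∧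
    (f1.ker ⊓ f2.ker : Subgroup (W p)).relIndex K = p} = {f1.ker, f2.ker} := by
  have p0 := hp.out.pos
  have p3 : p ^ 2 < p ^ 3 := Nat.pow_lt_pow_right hp.out.one_lt (by decide)
  have hch : ((p.choose 2 : ℕ) : ZMod p) = 0 := (ZMod.natCast_eq_zero_iff _ _).2
    (hp.out.dvd_choose_self (by decide) (lt_of_le_of_ne hp.out.two_le h2.symm))
  have up : ∀ K : Subgroup (W p), f1.ker ⊓ f2.ker ≤ K → Nat.card K = p ^ 3 →
      f1.ker ⊓ f2.ker < K ∧ (f1.ker ⊓ f2.ker : Subgroup (W p)).relIndex K = p := by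
    intro K hle hK
    have := crd hle
    rw [d0, hK, pow_succ' p 2] at this
    refine ⟨lt_of_le_of_ne hle (fun e => ?_), Nat.eq_of_mul_eq_mul_right (by positivity) this⟩
    rw [← e, d0] at hK
    omega
  ext K
  constructor
  · rintro ⟨hlt, hX, hi⟩
    have h8 : Nat.card K = p ^ 3 := by rw [← crd hlt.le, hi, d0]; ring
    rcases hX.2 with hX | ⟨-, hX | ⟨a, b, h1, h1', hab⟩⟩
    · have := Nat.le_of_dvd (by positivity) hX
      omega
    · left
      refine Subgroup.eq_of_le_of_card_ge (fun g hg => ?_) (by rw [h8, d1])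
      have hx : (⟨0, 1, 0⟩ : W p) ∈ K := hlt.le ⟨rfl, (m2 _).2 (map_zero _)⟩
      have := cm (congrArg Subtype.val (hX ⟨g, hg⟩ ⟨_, hx⟩))
      rw [m1]
      simpa using this
    · right
      have o : ∀ a : K, a ^ p = 1 → (a : W p) ∈ (f2 (p := p)).ker := by
        intro a ha
        have e : (a : W p) ^ p = 1 := congrArg Subtype.val ha
        rw [pw, hch, zero_mul, io0, add_zero] at e
        have e2 : (p : ZMod (p * p)) * (a : W p).a = 0 := congrArg W.a e
        rw [← ZMod.natCast_zmod_val (a : W p).a] at e2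
        rw [m2, ← ZMod.natCast_zmod_val (a : W p).a, map_natCast]
        exact mulp e2
      have l1 : f1.ker ⊓ f2.ker < K ⊓ f2.ker := by
        refine lt_of_le_of_ne (le_inf hlt.le inf_le_right) (fun e => hab (Subtype.ext ?_))
        have ha : (a : W p) ∈ f1.ker ⊓ f2.ker := e ▸ ⟨a.2, o a h1⟩
        have hb : (b : W p) ∈ f1.ker ⊓ f2.ker := e ▸ ⟨b.2, o b h1'⟩
        exact ab1 ha.1 hb.1
      have l2 := clt l1
      have l3 := Subgroup.card_dvd_of_le (inf_le_left : K ⊓ f2.ker ≤ K)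
      rw [h8] at l3
      rw [d0] at l2
      have l4 := (dv l3).resolve_right (fun d => by
        have := Nat.le_of_dvd (by positivity) d
        omega)
      exact (Subgroup.eq_of_le_of_card_ge inf_le_left (by rw [l4, h8])).symm.trans
        (Subgroup.eq_of_le_of_card_ge inf_le_right (by rw [l4, d2]))
  · rintro (rfl | rfl)
    · exact ⟨(up _ inf_le_left d1).1, ⟨inferInstance, Or.inr ⟨d1, Or.inl
        (fun a b => Subtype.ext (ab1 a.2 b.2))⟩⟩, (up _ inf_le_left d1).2⟩
    · refine ⟨(up _ inf_le_right d2).1, ⟨inferInstance, Or.inr ⟨d2, Or.inr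
        ⟨⟨⟨0, 1, 0⟩, (m2 _).2 (map_zero _)⟩, ⟨⟨0, 0, 1⟩, (m2 _).2 (map_zero _)⟩,
          Subtype.ext ?_, Subtype.ext ?_, fun h => ?_⟩⟩⟩, (up _ inf_le_right d2).2⟩
      · show (⟨0, 1, 0⟩ : W p) ^ p = 1
        simp [pw, io0, one_d]
      · show (⟨0, 0, 1⟩ : W p) ^ p = 1
        simp [pw, io0, one_d]
      · have := cm (congrArg Subtype.val h)
        simp at this

end

def P := Fin 4 × Fin 2 × Fin 2

instance : DecidableEq P := inferInstanceAs (DecidableEq (Fin 4 × Fin 2 × Fin 2))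
instance : Fintype P := inferInstanceAs (Fintype (Fin 4 × Fin 2 × Fin 2))
instance : Mul P := ⟨fun a b =>
  (a.1 + b.1 + (if a.2.2 = 1 ∧ b.2.1 = 1 then 2 else 0), a.2.1 + b.2.1, a.2.2 + b.2.2)⟩
instance : One P := ⟨(0, 0, 0)⟩
instance : Inv P := ⟨fun a => a * a * a⟩
instance : Group P := Group.ofLeftAxioms (by decide +kernel) (by decide +kernel)
  (by decide +kernel)

def sub (p : P → Bool) (h : p 1 = true ∧ (∀ a b, p a = true → p b = true → p (a * b) = true) ∧
    ∀ a, p a = true → p a⁻¹ = true) : Subgroup P where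
  carrier := {x | p x = true}
  mul_mem' := fun {a b} => h.2.1 a b
  one_mem' := h.1
  inv_mem' := fun {a} => h.2.2 a

theorem card_sub (p : P → Bool) (h) :
    Nat.card (sub p h) = (Finset.univ.filter (fun x => p x = true)).card := by
  have : Nat.card (sub p h) = Nat.card {x // p x = true} := rfl
  rw [this, Nat.card_eq_fintype_card, Fintype.card_subtype]

def p1 (a : P) : Bool := a.2.2 = 0
def p2 (a : P) : Bool := (a.1.val + a.2.1.val) % 2 = 0
def p3 (a : P) : Bool := (a.1.val + a.2.1.val + a.2.2.val) % 2 = 0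
def p0 (a : P) : Bool := p1 a && p2 a
def H0 := sub p0 (by decide +kernel)
def K1 := sub p1 (by decide +kernel)
def K2 := sub p2 (by decide +kernel)
def K3 := sub p3 (by decide +kernel)

theorem c0 : Nat.card H0 = 4 := (card_sub _ _).trans (by decide +kernel)
theorem c1 : Nat.card K1 = 8 := (card_sub _ _).trans (by decide +kernel)
theorem c2 : Nat.card K2 = 8 := (card_sub _ _).trans (by decide +kernel)
theorem c3 : Nat.card K3 = 8 := (card_sub _ _).trans (by decide +kernel)

theorem cnt : {K : Subgroup P | H0 < K ∧ X0 2 K ∧ H0.relIndex K = 2} = {K1, K2} := by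
  have key : ∀ (K L : Subgroup P) (g : P), H0 ≤ K → g ∈ K → Nat.card K = 8 → Nat.card L = 8 →
      (∀ x ∈ L, x ∈ H0 ∨ g⁻¹ * x ∈ H0) → K = L := by
    intro K L g hle hg hK hL hx
    refine (Subgroup.eq_of_le_of_card_ge (fun x hxL => ?_) (by rw [hK, hL])).symm
    rcases hx x hxL with h | h
    · exact hle h
    · have e : x = g * (g⁻¹ * x) := by group
      rw [e]
      exact K.mul_mem hg (hle h)
  have up : ∀ K : Subgroup P, H0 ≤ K → Nat.card K = 8 → H0 < K ∧ H0.relIndex K = 2 := by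
    intro K hle hK
    have := crd hle
    rw [c0, hK] at this
    refine ⟨lt_of_le_of_ne hle (fun e => ?_), by omega⟩
    rw [← e, c0] at hK
    omega
  ext K
  constructor
  · rintro ⟨hlt, hX, hi⟩
    have h8 : Nat.card K = 8 := by rw [← crd hlt.le, hi, c0]
    obtain ⟨g, hg, hg0⟩ := SetLike.exists_of_lt hlt
    have tri : ∀ g : P, ¬ p0 g = true →
        (∀ x, p1 x = true → p0 x = true ∨ p0 (g⁻¹ * x) = true) ∨
        (∀ x, p2 x = true → p0 x = true ∨ p0 (g⁻¹ * x) = true) ∨
        (∀ x, p3 x = true → p0 x = true ∨ p0 (g⁻¹ * x) = true) := by decide +kernel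
    rcases tri g hg0 with h | h | h
    · exact Or.inl (key K K1 g hlt.le hg h8 c1 h)
    · exact Or.inr (key K K2 g hlt.le hg h8 c2 h)
    · exfalso
      rw [key K K3 g hlt.le hg h8 c3 h] at hX
      rcases hX.2 with hX | ⟨-, hX | ⟨a, b, h1, -, h2⟩⟩
      · rw [c3] at hX
        exact absurd hX (by decide)
      · have := congrArg Subtype.val (hX ⟨(1, 1, 0), (by decide : p3 (1, 1, 0) = true)⟩
          ⟨(1, 0, 1), (by decide : p3 (1, 0, 1) = true)⟩)
        exact absurd this (by decide)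
      · have q : ∀ a b : P, p3 a = true → a ^ 2 = 1 → a * b = b * a := by decide +kernel
        exact h2 (Subtype.ext (q a.1 b.1 a.2 (congrArg Subtype.val h1)))
  · rintro (rfl | rfl)
    · have q : ∀ a : P, p0 a = true → p1 a = true := by decide +kernel
      have q2 : ∀ a b : P, p1 a = true → p1 b = true → a * b = b * a := by decide +kernel
      exact ⟨(up K1 q c1).1, ⟨inferInstance,
        Or.inr ⟨c1, Or.inl (fun a b => Subtype.ext (q2 a.1 b.1 a.2 b.2))⟩⟩,
        (up K1 q c1).2⟩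
    · have q : ∀ a : P, p0 a = true → p2 a = true := by decide +kernel
      refine ⟨(up K2 q c2).1, ⟨inferInstance, Or.inr ⟨c2, Or.inr
        ⟨⟨(0, 0, 1), (by decide : p2 (0, 0, 1) = true)⟩,
        ⟨(1, 1, 1), (by decide : p2 (1, 1, 1) = true)⟩, Subtype.ext (by decide +kernel),
        Subtype.ext (by decide +kernel), fun h => ?_⟩⟩⟩,
        (up K2 q c2).2⟩
      exact absurd (congrArg Subtype.val h) (by decide)

theorem result (p : ℕ) (hp : p.Prime) : ∃ X : Cls, Closed X ∧
    (∀ (G : Type) [Group G] [Finite G], IsPGroup p G → ∀ H : Subgroup G,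
      IsMaxNormal X H → IsMax X H) ∧
    ∃ (G : Type) (_ : Group G) (_ : Finite G), IsPGroup p G ∧ ∃ H : Subgroup G, X H ∧
      ¬ (aNum p X H = 0 ∨ aNum p X H ≡ 1 [MOD p]) := by
  haveI : Fact p.Prime := ⟨hp⟩
  have fin : ¬ (2 = 0 ∨ 2 ≡ 1 [MOD p]) := by
    rintro (h | h)
    · omega
    · exact hp.one_lt.ne' (Nat.dvd_one.1 ((Nat.modEq_iff_dvd' (by decide)).1 h.symm))
  refine ⟨X0 p, closed, cond1, ?_⟩
  by_cases h2 : p = 2
  · subst h2
    refine ⟨P, inferInstance, inferInstance, ?_, H0, ⟨inferInstance, Or.inl (by rw [c0]; decide)⟩, ?_⟩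
    · exact IsPGroup.of_card (n := 4) (by rw [Nat.card_eq_fintype_card]; rfl)
    · have hne : K1 ≠ K2 := by
        intro h
        have h1 : ((1, 0, 0) : P) ∈ K1 := (by decide : p1 (1, 0, 0) = true)
        rw [h] at h1
        have h2 : p2 (1, 0, 0) = true := h1
        exact absurd h2 (by decide)
      unfold aNum
      rw [cnt, Set.ncard_pair hne]
      exact fin
  · refine ⟨W p, inferInstance, inferInstance, IsPGroup.of_card cW, f1.ker ⊓ f2.ker,
      ⟨inferInstance, Or.inl (by rw [d0])⟩, ?_⟩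
    have hne : (f1 (p := p)).ker ≠ f2.ker := by
      intro h
      have h1 : (⟨0, 0, 1⟩ : W p) ∈ (f2 (p := p)).ker := (m2 _).2 (map_zero _)
      rw [← h, m1] at h1
      exact one_ne_zero h1
    unfold aNum
    rw [cntp h2, Set.ncard_pair hne]
    exact fin

end Pool.Agent.Results.MP_b62331_al.Neg
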